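import Mathlib

/-! Field theory used for the unirationality of `E^5/μ_6`. -/

namespace W560.Ueno

open IntermediateField

universe u v

/-- The kernel of the universal derivation of `L / K`, as an intermediate field. -/
def kerD (K : Type u) (L : Type v) [Field K] [Field L] [Algebra K L] : IntermediateField K L where
  carrier := {a | KaehlerDifferential.D K L a = 0}
  mul_mem' := by
    intro a b ha hb
    simp only [Set.mem_ofPred_eq] at *
    rw [Derivation.leibniz, ha, hb]; simp
  add_mem' := by
    intro a b ha hb
    simp only [Set.mem_ofPred_eq] at *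
    rw [map_add, ha, hb]; simp
  algebraMap_mem' := by
    intro r
    simp
  inv_mem' := by
    intro a ha
    simp only [Set.mem_ofPred_eq] at *
    by_cases h : a = 0
    · subst h; simp
    · have h1 : KaehlerDifferential.D K L (a * a⁻¹) = 0 := by
        rw [mul_inv_cancel₀ h]; simp
      rw [Derivation.leibniz, ha, smul_zero, add_zero] at h1
      exact (smul_eq_zero.mp h1).resolve_left h

theorem isAlgebraic_of_D (K : Type u) (L : Type v) [Field K] [Field L] [Algebra K L] [CharZero K]
    (S : Finset L) (hS : IntermediateField.adjoin K (S : Set L) = ⊤)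
    (h : ∀ s ∈ S, KaehlerDifferential.D K L s = 0) : Algebra.IsAlgebraic K L := by
  have hker : kerD K L = ⊤ := by
    rw [eq_top_iff, ← hS, IntermediateField.adjoin_le_iff]
    intro s hs
    exact h s hs
  have hD : ∀ a : L, KaehlerDifferential.D K L a = 0 := by
    intro a
    have : a ∈ kerD K L := by rw [hker]; exact IntermediateField.mem_top
    exact this
  have hsub : Subsingleton (Ω[L⁄K]) := by
    refine (subsingleton_iff_forall_eq 0).mpr fun y => ?_
    have hy : y ∈ Submodule.span L (Set.range (KaehlerDifferential.D K L)) := by
      rw [KaehlerDifferential.span_range_derivation]; trivial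
    have h0 : Submodule.span L (Set.range (KaehlerDifferential.D K L)) ≤ ⊥ := by
      rw [Submodule.span_le]
      rintro _ ⟨a, rfl⟩
      simp [hD a]
    simpa using h0 hy
  have hun : Algebra.FormallyUnramified K L := ⟨hsub⟩
  have hfg : Algebra.EssFiniteType K L := by
    rw [← IntermediateField.fg_top_iff]
    exact ⟨S, hS⟩
  have hsep : Algebra.IsSeparable K L := Algebra.FormallyUnramified.isSeparable K L
  infer_instance

/-- Elements of `M` algebraic over `K` form a relatively algebraically closed subfield. -/
theorem mem_of_isAlgebraic {K : Type u} {M : Type v} [Field K] [Field M] [Algebra K M] {a : M}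
    (h : IsAlgebraic (algebraicClosure K M) a) : a ∈ algebraicClosure K M := by
  rw [mem_algebraicClosure_iff]
  exact h.restrictScalars K

theorem mem_of_pow {K : Type u} {M : Type v} [Field K] [Field M] [Algebra K M] {a : M} {n : ℕ}
    (hn : 0 < n) (h : a ^ n ∈ algebraicClosure K M) : a ∈ algebraicClosure K M := by
  apply mem_of_isAlgebraic
  refine ⟨Polynomial.X ^ n - Polynomial.C ⟨a ^ n, h⟩, ?_, ?_⟩
  · exact (Polynomial.monic_X_pow_sub_C _ hn.ne').ne_zero
  · simp [Polynomial.aeval_def]

end W560.Ueno
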