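import Pool.Agent.W560.Ueno.Dom

/-! Independence from algebraicity. -/

namespace W560.Ueno

open MvPolynomial Cardinal

universe u

variable (k : Type u) [Field k]

/-- the polynomial ring in five variables -/
abbrev PP := MvPolynomial (Fin 5) k
/-- the rational function field in five variables -/
abbrev MM := FractionRing (MvPolynomial (Fin 5) k)

/-- variables -/
noncomputable def T (i : Fin 5) : MM k := algebraMap (PP k) (MM k) (X i)

theorem T_basis : IsTranscendenceBasis k (T k) := by
  have h := IsTranscendenceBasis.mvPolynomial (Fin 5) k
  have : Algebra.IsAlgebraic (MvPolynomial (Fin 5) k) (MM k) :=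
    IsLocalization.isAlgebraic _ (nonZeroDivisors (MvPolynomial (Fin 5) k))
  have h2 := h.algebraMap_comp (A := MM k)
  exact h2

theorem trdegM : (5 : Cardinal.{u}) = Algebra.trdeg k (MM k) := by
  have := (T_basis k).lift_cardinalMk_eq_trdeg
  simpa using this

open scoped IntermediateField.algebraAdjoinAdjoin in
theorem indep (v : Fin 5 → MM k)
    (h : ∀ i, T k i ∈ algebraicClosure (IntermediateField.adjoin k (Set.range v)) (MM k)) :
    AlgebraicIndependent k v := by
  have h1 : Algebra.IsAlgebraic (IntermediateField.adjoin k (Set.range v)) (MM k) := by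
    rw [(T_basis k).isAlgebraic_iff]
    intro i
    exact mem_algebraicClosure_iff.mp (h i)
  have h2 : Algebra.IsAlgebraic (Algebra.adjoin k (Set.range v)) (MM k) :=
    (IsFractionRing.comap_isAlgebraic_iff
      (K := IntermediateField.adjoin k (Set.range v))).mpr h1
  have h3 := Algebra.IsAlgebraic.isTranscendenceBasis_of_lift_le_trdeg_of_finite k v (by
    rw [← trdegM]; simp)
  exact h3.1

end W560.Ueno
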