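import Mathlib

/-! Covariants of the restriction of the Hesse cubic to a line, and the five points of
`Y² = X³ + W`. -/

namespace W560.Ueno

section ring

variable {R : Type*} [CommRing R]

/-- coefficients of the binary cubic -/
def k0 (a : R) : R := 1 - a ^ 3
/-- coefficients of the binary cubic -/
def k1 (μ a b : R) : R := μ * a - a ^ 2 * b
/-- coefficients of the binary cubic -/
def k2 (μ a b : R) : R := μ * b - a * b ^ 2
/-- coefficients of the binary cubic -/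
def k3 (b : R) : R := 1 - b ^ 3

/-- the binary cubic -/
def cc (μ a b x y : R) : R :=
  k0 a * x ^ 3 + 3 * k1 μ a b * x ^ 2 * y + 3 * k2 μ a b * x * y ^ 2 + k3 b * y ^ 3

/-- its discriminant -/
def dl (μ a b : R) : R :=
  k0 a ^ 2 * k3 b ^ 2 - 6 * k0 a * k1 μ a b * k2 μ a b * k3 b + 4 * k0 a * k2 μ a b ^ 3
    + 4 * k1 μ a b ^ 3 * k3 b - 3 * k1 μ a b ^ 2 * k2 μ a b ^ 2

/-- its Hessian -/
def hh (μ a b x y : R) : R :=
  (k0 a * k2 μ a b - k1 μ a b ^ 2) * x ^ 2 + (k0 a * k3 b - k1 μ a b * k2 μ a b) * x * y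
    + (k1 μ a b * k3 b - k2 μ a b ^ 2) * y ^ 2

/-- its cubic covariant -/
def gg (μ a b x y : R) : R :=
  (k0 a ^ 2 * k3 b - 3 * k0 a * k1 μ a b * k2 μ a b + 2 * k1 μ a b ^ 3) * x ^ 3
    + 3 * (k0 a * k1 μ a b * k3 b - 2 * k0 a * k2 μ a b ^ 2 + k1 μ a b ^ 2 * k2 μ a b) * x ^ 2 * y
    - 3 * (k0 a * k2 μ a b * k3 b - 2 * k1 μ a b ^ 2 * k3 b + k1 μ a b * k2 μ a b ^ 2) * x * y ^ 2
    - (k3 b ^ 2 * k0 a - 3 * k1 μ a b * k2 μ a b * k3 b + 2 * k2 μ a b ^ 3) * y ^ 3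

theorem syzygy (μ a b x y : R) :
    gg μ a b x y ^ 2 + 4 * hh μ a b x y ^ 3 = dl μ a b * cc μ a b x y ^ 2 := by
  unfold gg hh dl cc
  generalize k0 a = c0
  generalize k1 μ a b = c1
  generalize k2 μ a b = c2
  generalize k3 b = c3
  ring

theorem restrict (μ a b x y z : R) (hz : z = - a * x - b * y) :
    x ^ 3 + y ^ 3 + z ^ 3 - 3 * μ * x * y * z = cc μ a b x y := by
  subst hz
  unfold cc k0 k1 k2 k3
  ring

theorem dual0 (μ a b : R) :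
    ((2 * μ ^ 3 - 1) * a ^ 3 + b ^ 3 + 1 - 3 * μ ^ 2 * a * b) ^ 2
      = dl μ a b - 4 * (1 - μ ^ 3) * (μ * a ^ 2 - b) ^ 3 := by
  unfold dl k0 k1 k2 k3
  ring

theorem dual1 (μ a b : R) :
    ((2 * μ ^ 3 - 1) * b ^ 3 + a ^ 3 + 1 - 3 * μ ^ 2 * a * b) ^ 2
      = dl μ a b - 4 * (1 - μ ^ 3) * (μ * b ^ 2 - a) ^ 3 := by
  unfold dl k0 k1 k2 k3
  ring

theorem dual2 (μ a b : R) :
    ((2 * μ ^ 3 - 1) + a ^ 3 + b ^ 3 - 3 * μ ^ 2 * a * b) ^ 2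
      = dl μ a b - 4 * (1 - μ ^ 3) * (μ - a * b) ^ 3 := by
  unfold dl k0 k1 k2 k3
  ring

end ring

end W560.Ueno
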