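import Pool.Agent.W560.Ueno.Fields
import Pool.Agent.W560.Ueno.Cubic

/-! The three functions `X_i³/W` determine `μ, a, b` up to finite ambiguity. -/

namespace W560.Ueno

universe u v

theorem solve3 {L : Type*} {V : Type*} [Field L] [AddCommGroup V] [Module L V]
    {r00 r01 r02 r10 r11 r12 r20 r21 r22 : L} {d0 d1 d2 : V}
    (h0 : r00 • d0 + r01 • d1 + r02 • d2 = 0)
    (h1 : r10 • d0 + r11 • d1 + r12 • d2 = 0)
    (h2 : r20 • d0 + r21 • d1 + r22 • d2 = 0)
    (hdet : r00 * (r11 * r22 - r12 * r21) - r01 * (r10 * r22 - r12 * r20)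
      + r02 * (r10 * r21 - r11 * r20) ≠ 0) : d0 = 0 ∧ d1 = 0 ∧ d2 = 0 := by
  have e0 : (r00 * (r11 * r22 - r12 * r21) - r01 * (r10 * r22 - r12 * r20)
      + r02 * (r10 * r21 - r11 * r20)) • d0 = 0 := by
    linear_combination (norm := module) (r11 * r22 - r12 * r21) • h0 - (r01 * r22 - r02 * r21) • h1
      + (r01 * r12 - r02 * r11) • h2
  have e1 : (r00 * (r11 * r22 - r12 * r21) - r01 * (r10 * r22 - r12 * r20)
      + r02 * (r10 * r21 - r11 * r20)) • d1 = 0 := by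
    linear_combination (norm := module) (-(r10 * r22 - r12 * r20)) • h0 + (r00 * r22 - r02 * r20) • h1
      - (r00 * r12 - r02 * r10) • h2
  have e2 : (r00 * (r11 * r22 - r12 * r21) - r01 * (r10 * r22 - r12 * r20)
      + r02 * (r10 * r21 - r11 * r20)) • d2 = 0 := by
    linear_combination (norm := module) (r10 * r21 - r11 * r20) • h0 - (r00 * r21 - r01 * r20) • h1
      + (r00 * r11 - r01 * r10) • h2
  exact ⟨(smul_eq_zero.mp e0).resolve_left hdet, (smul_eq_zero.mp e1).resolve_left hdet,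
    (smul_eq_zero.mp e2).resolve_left hdet⟩

section ring
variable {R : Type*} [CommRing R]

/-- partial derivative of the discriminant -/
def dlm (μ a b : R) : R :=
  12*a^3*b^3*μ^2 - 12*a^2*b^2*μ^3 - 12*a*b^4*μ - 12*a^4*b*μ + 12*a^3*μ^2 + 12*b^3*μ^2
    + 12*a^2*b^2 - 12*a*b*μ
/-- partial derivative of the discriminant -/
def dla (μ a b : R) : R :=
  12*a^2*b^3*μ^3 - 6*a*b^2*μ^4 - 6*b^4*μ^2 - 24*a^3*b*μ^2 - 6*a^2*b^3 + 12*a^2*μ^3 + 6*a^5
    + 24*a*b^2*μ - 6*b*μ^2 - 6*a^2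
/-- partial derivative of the discriminant -/
def dlb (μ a b : R) : R :=
  12*a^3*b^2*μ^3 - 6*a^2*b*μ^4 - 24*a*b^3*μ^2 - 6*a^4*μ^2 - 6*a^3*b^2 + 12*b^2*μ^3 + 6*b^5
    + 24*a^2*b*μ - 6*a*μ^2 - 6*b^2

/-- an entry of the Jacobian matrix: `-m e ∂Δ + Δ e ∂m + 3 m Δ ∂e` -/
def ent (m e Δ dm de dΔ : R) : R := - m * e * dΔ + Δ * e * dm + 3 * m * Δ * de

/-- the Jacobian determinant -/
def jac (μ a b : R) : R :=
  ent (1 - μ ^ 3) (μ * a ^ 2 - b) (dl μ a b) (-3 * μ ^ 2) (a ^ 2) (dlm μ a b)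
    * (ent (1 - μ ^ 3) (μ * b ^ 2 - a) (dl μ a b) 0 (-1) (dla μ a b)
        * ent (1 - μ ^ 3) (μ - a * b) (dl μ a b) 0 (-a) (dlb μ a b)
      - ent (1 - μ ^ 3) (μ * b ^ 2 - a) (dl μ a b) 0 (2 * μ * b) (dlb μ a b)
        * ent (1 - μ ^ 3) (μ - a * b) (dl μ a b) 0 (-b) (dla μ a b))
  - ent (1 - μ ^ 3) (μ * a ^ 2 - b) (dl μ a b) 0 (2 * μ * a) (dla μ a b)
    * (ent (1 - μ ^ 3) (μ * b ^ 2 - a) (dl μ a b) (-3 * μ ^ 2) (b ^ 2) (dlm μ a b)
        * ent (1 - μ ^ 3) (μ - a * b) (dl μ a b) 0 (-a) (dlb μ a b)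
      - ent (1 - μ ^ 3) (μ * b ^ 2 - a) (dl μ a b) 0 (2 * μ * b) (dlb μ a b)
        * ent (1 - μ ^ 3) (μ - a * b) (dl μ a b) (-3 * μ ^ 2) 1 (dlm μ a b))
  + ent (1 - μ ^ 3) (μ * a ^ 2 - b) (dl μ a b) 0 (-1) (dlb μ a b)
    * (ent (1 - μ ^ 3) (μ * b ^ 2 - a) (dl μ a b) (-3 * μ ^ 2) (b ^ 2) (dlm μ a b)
        * ent (1 - μ ^ 3) (μ - a * b) (dl μ a b) 0 (-b) (dla μ a b)
      - ent (1 - μ ^ 3) (μ * b ^ 2 - a) (dl μ a b) 0 (-1) (dla μ a b)
        * ent (1 - μ ^ 3) (μ - a * b) (dl μ a b) (-3 * μ ^ 2) 1 (dlm μ a b))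

theorem jac_zero : jac (0 : R) 0 0 = -27 := by
  simp [jac, ent, dl, dlm, dla, dlb, k0, k1, k2, k3]
  norm_num

theorem map_jac {S : Type*} [CommRing S] (f : R →+* S) (μ a b : R) :
    f (jac μ a b) = jac (f μ) (f a) (f b) := by
  simp [jac, ent, dl, dlm, dla, dlb, k0, k1, k2, k3, map_ofNat]

theorem map_dl {S : Type*} [CommRing S] (f : R →+* S) (μ a b : R) :
    f (dl μ a b) = dl (f μ) (f a) (f b) := by
  simp [dl, k0, k1, k2, k3, map_ofNat]

theorem map_rel {S : Type*} [CommRing S] (f : R →+* S) (u μ a b e : R) :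
    f (u * dl μ a b + 4 * (1 - μ ^ 3) * e ^ 3)
      = f u * dl (f μ) (f a) (f b) + 4 * (1 - f μ ^ 3) * (f e) ^ 3 := by
  rw [map_add, map_mul, map_dl]
  simp [map_ofNat]

end ring

section der

variable {K : Type u} {L : Type v} {V : Type*} [Field K] [Field L] [Algebra K L]
  [AddCommGroup V] [Module L V] [Module K V] (D : Derivation K L V)

theorem D_ofNat (n : ℕ) [n.AtLeastTwo] : D (OfNat.ofNat n : L) = 0 := by
  have h := D.map_natCast n
  rwa [← Nat.cast_ofNat (R := L) (n := n)]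

theorem D_dl (μ a b : L) :
    D (dl μ a b) = dlm μ a b • D μ + dla μ a b • D a + dlb μ a b • D b := by
  unfold dl k0 k1 k2 k3 dlm dla dlb
  have h3 : D (3 : L) = 0 := D_ofNat D 3
  have h4 : D (4 : L) = 0 := D_ofNat D 4
  have h6 : D (6 : L) = 0 := D_ofNat D 6
  simp only [map_sub, map_add, Derivation.leibniz, Derivation.leibniz_pow, h3, h4, h6,
    Derivation.map_one_eq_zero]
  module

/-- one row of the linear system -/
theorem row {m e Δ : L} {u : K} (hu : algebraMap K L u * Δ + 4 * m * e ^ 3 = 0) (he : e ≠ 0)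
    (h4 : (4 : L) ≠ 0) :
    (- m * e) • D Δ + (Δ * e) • D m + (3 * m * Δ) • D e = 0 := by
  have h := congrArg D hu
  have h40 : D (4 : L) = 0 := D_ofNat D 4
  simp only [map_add, Derivation.leibniz, Derivation.leibniz_pow, h40, map_zero,
    Derivation.map_algebraMap] at h
  have key : (4 * e ^ 2) • ((- m * e) • D Δ + (Δ * e) • D m + (3 * m * Δ) • D e) = 0 := by
    have h2 := congrArg (fun v => Δ • v) h
    simp only [smul_zero] at h2
    have h3 : (algebraMap K L u * Δ) • D Δ = (- 4 * m * e ^ 3) • D Δ := by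
      congr 1
      linear_combination hu
    linear_combination (norm := module) h2 - h3
  refine (smul_eq_zero.mp key).resolve_left ?_
  exact mul_ne_zero h4 (pow_ne_zero 2 he)

end der

theorem alg3 {K : Type u} {L : Type v} [Field K] [Field L] [Algebra K L] [CharZero K]
    (μ a b : L) (htop : IntermediateField.adjoin K {μ, a, b} = ⊤) (u0 u1 u2 : K)
    (h0 : algebraMap K L u0 * dl μ a b + 4 * (1 - μ ^ 3) * (μ * a ^ 2 - b) ^ 3 = 0)
    (h1 : algebraMap K L u1 * dl μ a b + 4 * (1 - μ ^ 3) * (μ * b ^ 2 - a) ^ 3 = 0)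
    (h2 : algebraMap K L u2 * dl μ a b + 4 * (1 - μ ^ 3) * (μ - a * b) ^ 3 = 0)
    (e0 : μ * a ^ 2 - b ≠ 0) (e1 : μ * b ^ 2 - a ≠ 0) (e2 : μ - a * b ≠ 0)
    (hj : jac μ a b ≠ 0) : Algebra.IsAlgebraic K L := by
  classical
  have : CharZero L := charZero_of_injective_algebraMap (algebraMap K L).injective
  set D := KaehlerDifferential.D K L with hD
  have h2' : D (2 : L) = 0 := D_ofNat D 2
  have hm : D (1 - μ ^ 3) = (-3 * μ ^ 2) • D μ := by
    simp only [map_sub, Derivation.leibniz_pow, Derivation.map_one_eq_zero]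
    module
  have hA : D (μ * a ^ 2 - b) = (a ^ 2) • D μ + (2 * μ * a) • D a + (-1 : L) • D b := by
    simp only [map_sub, Derivation.leibniz, Derivation.leibniz_pow]
    module
  have hB : D (μ * b ^ 2 - a) = (b ^ 2) • D μ + (-1 : L) • D a + (2 * μ * b) • D b := by
    simp only [map_sub, Derivation.leibniz, Derivation.leibniz_pow]
    module
  have hC : D (μ - a * b) = (1 : L) • D μ + (-b) • D a + (-a) • D b := by
    simp only [map_sub, Derivation.leibniz]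
    module
  have hd := D_dl D μ a b
  have r0 := row D h0 e0 (by norm_num)
  have r1 := row D h1 e1 (by norm_num)
  have r2 := row D h2 e2 (by norm_num)
  rw [hd, hm, hA] at r0
  rw [hd, hm, hB] at r1
  rw [hd, hm, hC] at r2
  have s0 : ent (1 - μ ^ 3) (μ * a ^ 2 - b) (dl μ a b) (-3 * μ ^ 2) (a ^ 2) (dlm μ a b) • D μ
      + ent (1 - μ ^ 3) (μ * a ^ 2 - b) (dl μ a b) 0 (2 * μ * a) (dla μ a b) • D a
      + ent (1 - μ ^ 3) (μ * a ^ 2 - b) (dl μ a b) 0 (-1) (dlb μ a b) • D b = 0 := by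
    rw [← r0]; unfold ent; module
  have s1 : ent (1 - μ ^ 3) (μ * b ^ 2 - a) (dl μ a b) (-3 * μ ^ 2) (b ^ 2) (dlm μ a b) • D μ
      + ent (1 - μ ^ 3) (μ * b ^ 2 - a) (dl μ a b) 0 (-1) (dla μ a b) • D a
      + ent (1 - μ ^ 3) (μ * b ^ 2 - a) (dl μ a b) 0 (2 * μ * b) (dlb μ a b) • D b = 0 := by
    rw [← r1]; unfold ent; module
  have s2 : ent (1 - μ ^ 3) (μ - a * b) (dl μ a b) (-3 * μ ^ 2) 1 (dlm μ a b) • D μ
      + ent (1 - μ ^ 3) (μ - a * b) (dl μ a b) 0 (-b) (dla μ a b) • D a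
      + ent (1 - μ ^ 3) (μ - a * b) (dl μ a b) 0 (-a) (dlb μ a b) • D b = 0 := by
    rw [← r2]; unfold ent; module
  obtain ⟨z0, z1, z2⟩ := solve3 s0 s1 s2 hj
  refine isAlgebraic_of_D K L {μ, a, b} (by simpa using htop) ?_
  intro s hs
  simp only [Finset.mem_insert, Finset.mem_singleton] at hs
  rcases hs with rfl | rfl | rfl
  · exact z0
  · exact z1
  · exact z2

/-- inside a big field -/
theorem mem3 {K : Type u} {M : Type v} [Field K] [Field M] [Algebra K M] [CharZero K]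
    (μ a b : M) (u0 u1 u2 : K)
    (h0 : algebraMap K M u0 * dl μ a b + 4 * (1 - μ ^ 3) * (μ * a ^ 2 - b) ^ 3 = 0)
    (h1 : algebraMap K M u1 * dl μ a b + 4 * (1 - μ ^ 3) * (μ * b ^ 2 - a) ^ 3 = 0)
    (h2 : algebraMap K M u2 * dl μ a b + 4 * (1 - μ ^ 3) * (μ - a * b) ^ 3 = 0)
    (e0 : μ * a ^ 2 - b ≠ 0) (e1 : μ * b ^ 2 - a ≠ 0) (e2 : μ - a * b ≠ 0)
    (hj : jac μ a b ≠ 0) :
    μ ∈ algebraicClosure K M ∧ a ∈ algebraicClosure K M ∧ b ∈ algebraicClosure K M := by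
  set L := IntermediateField.adjoin K {μ, a, b} with hL
  have hμ : μ ∈ L := IntermediateField.subset_adjoin _ _ (by simp)
  have ha : a ∈ L := IntermediateField.subset_adjoin _ _ (by simp)
  have hb : b ∈ L := IntermediateField.subset_adjoin _ _ (by simp)
  have hinj : Function.Injective (algebraMap L M) := (algebraMap L M).injective
  have key : Algebra.IsAlgebraic K L := by
    refine alg3 (⟨μ, hμ⟩ : L) ⟨a, ha⟩ ⟨b, hb⟩ ?_ u0 u1 u2 ?_ ?_ ?_ ?_ ?_ ?_ ?_
    · apply (IntermediateField.map_injective L.val)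
      rw [IntermediateField.adjoin_map, ← AlgHom.fieldRange_eq_map, IntermediateField.fieldRange_val]
      have hset : (L.val '' {(⟨μ, hμ⟩ : L), ⟨a, ha⟩, ⟨b, hb⟩}) = {μ, a, b} := by
        simp [Set.image_insert_eq]
      rw [hset]
    · apply hinj; rw [map_rel, map_zero]; exact h0
    · apply hinj; rw [map_rel, map_zero]; exact h1
    · apply hinj; rw [map_rel, map_zero]; exact h2
    · intro h; apply e0; simpa using congrArg (algebraMap L M) h
    · intro h; apply e1; simpa using congrArg (algebraMap L M) h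
    · intro h; apply e2; simpa using congrArg (algebraMap L M) h
    · intro h; apply hj
      have := congrArg (algebraMap L M) h
      rw [map_jac, map_zero] at this
      exact this
  have hle : ∀ x ∈ L, x ∈ algebraicClosure K M := by
    intro x hx
    rw [mem_algebraicClosure_iff]
    have := key.isAlgebraic (⟨x, hx⟩ : L)
    exact this.algebraMap
  exact ⟨hle _ hμ, hle _ ha, hle _ hb⟩

end W560.Ueno
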