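import Mathlib

/-! The family of cyclic cubic surfaces `x³+y³+z³-3μxyz = (1-μ³)s³`, its rational
parametrisation, and the covariants of a binary cubic. -/

namespace W560.Ueno

section ring

variable {R : Type*} [CommRing R]

/-- first coordinate of the parametrised point -/
def qx (_w μ α β : R) : R := 3 * (α * β * (α + β) + (1 - μ ^ 3))

/-- last coordinate of the parametrised point -/
def qs (w μ α β : R) : R := 3 * (α * β * (3 * μ + α + w * β) + w ^ 2 * (1 - μ ^ 3))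

/-- a factor -/
def qC (w μ α β : R) : R := (1 - μ ^ 3) * (3 * μ + (1 - w ^ 2) * α + (w - w ^ 2) * β)

/-- a factor -/
def qA (w μ α β : R) : R :=
  α * ((α * β * (3 * μ + α + w * β) + w ^ 2 * (1 - μ ^ 3)) - (α * β * (α + β) + (1 - μ ^ 3)))

/-- a factor -/
def qB (w μ α β : R) : R :=
  β * ((α * β * (3 * μ + α + w * β) + w ^ 2 * (1 - μ ^ 3)) - w * (α * β * (α + β) + (1 - μ ^ 3)))

/-- second coordinate of the parametrised point -/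
def qy (w μ α β : R) : R := qA w μ α β + w ^ 2 * qB w μ α β + w * qC w μ α β

/-- third coordinate of the parametrised point -/
def qz (w μ α β : R) : R := qA w μ α β + w * qB w μ α β + w ^ 2 * qC w μ α β

theorem q1 (w μ α β : R) (hw : w ^ 2 + w + 1 = 0) :
    μ * qx w μ α β + qy w μ α β + qz w μ α β = α * (qs w μ α β - qx w μ α β) := by
  unfold qy qz qA qB qC qx qs
  linear_combination (1*α*μ^3*w^2 - 1*α^2*β^2*w + 3*α*β^2*μ - 1*α*μ^3 + 1*α^2*β^2 - 3*μ^4 - 1*α*w^2 + 1*α + 3*μ) * hw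

theorem q2 (w μ α β : R) (hw : w ^ 2 + w + 1 = 0) :
    μ * qx w μ α β + w * qy w μ α β + w ^ 2 * qz w μ α β
      = β * (qs w μ α β - w * qx w μ α β) := by
  unfold qy qz qA qB qC qx qs
  linear_combination (1*α*μ^3*w^4 + 1*β*μ^3*w^4 - 1*α*μ^3*w^3 - 4*β*μ^3*w^3 - 1*α*μ^3*w^2 - 2*α^2*β^2*w^2 + 6*β*μ^3*w^2 - 3*μ^4*w^2 + 6*α*β^2*μ*w + 1*α*μ^3*w - 1*α*w^4 + 5*α^2*β^2*w - 3*β*μ^3*w - 1*β*w^4 + 3*μ^4*w - 6*α*β^2*μ + 1*α*w^3 + 3*α^2*β*μ - 3*α^2*β^2 + 4*β*w^3 - 3*μ^4 + 1*α*w^2 - 6*β*w^2 + 3*μ*w^2 - 1*α*w + 3*β*w - 3*μ*w + 3*μ) * hw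

theorem q3 (w μ α β : R) (hw : w ^ 2 + w + 1 = 0) :
    μ * qx w μ α β + w ^ 2 * qy w μ α β + w * qz w μ α β = 3 * qC w μ α β := by
  unfold qy qz qA qB qC qx
  linear_combination (- 1*β*μ^3*w^4 + 2*α*μ^3*w^3 - 1*α^2*β^2*w^3 + 4*β*μ^3*w^3 + 3*α*β^2*μ*w^2 - 3*α*μ^3*w^2 + 2*α^2*β^2*w^2 - 6*β*μ^3*w^2 - 3*α*β^2*μ*w - 2*α*μ^3*w - 1*α^2*β^2*w + 3*β*μ^3*w + 1*β*w^4 - 6*μ^4*w + 3*α*β^2*μ + 3*α*μ^3 - 2*α*w^3 + 3*α^2*β*μ - 4*β*w^3 + 6*μ^4 + 3*α*w^2 + 6*β*w^2 + 2*α*w - 3*β*w + 6*μ*w - 3*α - 6*μ) * hw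

theorem q4 (w μ α β : R) :
    3 * (α * β * qC w μ α β) = (1 - μ ^ 3) * (qs w μ α β - w ^ 2 * qx w μ α β) := by
  unfold qC qx qs
  ring

theorem norm_form (w X y z : R) (hw : w ^ 2 + w + 1 = 0) :
    X ^ 3 + y ^ 3 + z ^ 3 - 3 * X * y * z
      = (X + y + z) * (X + w * y + w ^ 2 * z) * (X + w ^ 2 * y + w * z) := by
  linear_combination (- 1*X*w^2*y*z - 1*w^2*y*z^2 - 1*w^2*y^2*z + 1*X*w*y*z - 1*X*w*y^2 - 1*X*w*z^2 - 1*w*y^3 - 1*w*z^3 - 3*X*y*z - 1*X^2*y - 1*X^2*z + 1*y^3 + 1*z^3) * hw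

theorem split3 (w x s : R) (hw : w ^ 2 + w + 1 = 0) :
    (s - x) * (s - w * x) * (s - w ^ 2 * x) = s ^ 3 - x ^ 3 := by
  linear_combination (1*s*w*x^2 - 1*w*x^3 - 1*s^2*x + 1*x^3) * hw

/-- The parametrised point lies on the cyclic cubic surface. -/
theorem q_eq (w μ α β : R) (hw : w ^ 2 + w + 1 = 0) :
    qx w μ α β ^ 3 + qy w μ α β ^ 3 + qz w μ α β ^ 3
        - 3 * μ * qx w μ α β * qy w μ α β * qz w μ α β = (1 - μ ^ 3) * qs w μ α β ^ 3 := by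
  have h := norm_form w (μ * qx w μ α β) (qy w μ α β) (qz w μ α β) hw
  have h2 := split3 w (qx w μ α β) (qs w μ α β) hw
  rw [q1 w μ α β hw, q2 w μ α β hw, q3 w μ α β hw] at h
  have h4 := q4 w μ α β
  linear_combination h + (1 - μ ^ 3) * h2
    + (qs w μ α β - qx w μ α β) * (qs w μ α β - w * qx w μ α β) * h4

end ring

end W560.Ueno
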