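import Pool.Agent.W560.Ueno.Alg
import Pool.Agent.W560.Ueno.Surf

/-! Dominance of the parametrisation. -/

namespace W560.Ueno

open MvPolynomial

universe u v

section ring

variable {R S : Type*} [CommRing R] [CommRing S] (f : R →+* S)

theorem map_qx (w μ α β : R) : f (qx w μ α β) = qx (f w) (f μ) (f α) (f β) := by
  simp [qx, map_ofNat]
theorem map_qs (w μ α β : R) : f (qs w μ α β) = qs (f w) (f μ) (f α) (f β) := by
  simp [qs, map_ofNat]
theorem map_qy (w μ α β : R) : f (qy w μ α β) = qy (f w) (f μ) (f α) (f β) := by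
  simp [qy, qA, qB, qC, map_ofNat]
theorem map_qz (w μ α β : R) : f (qz w μ α β) = qz (f w) (f μ) (f α) (f β) := by
  simp [qz, qA, qB, qC, map_ofNat]
theorem map_hh (μ a b x y : R) : f (hh μ a b x y) = hh (f μ) (f a) (f b) (f x) (f y) := by
  simp [hh, k0, k1, k2, k3, map_ofNat]
theorem map_cc (μ a b x y : R) : f (cc μ a b x y) = cc (f μ) (f a) (f b) (f x) (f y) := by
  simp [cc, k0, k1, k2, k3, map_ofNat]

/-- the two evaluations of the sextic used for non-vanishing -/
def evp (μ a b : R) : R :=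
  hh μ a b 0 1 ^ 3 * cc μ a b 1 1 ^ 2 - hh μ a b 1 1 ^ 3 * cc μ a b 0 1 ^ 2

theorem map_evp (μ a b : R) : f (evp μ a b) = evp (f μ) (f a) (f b) := by
  simp [evp, map_hh, map_cc]

theorem evp_val : evp (0 : R) 0 2 = 16807 := by
  simp [evp, hh, cc, k0, k1, k2, k3]
  norm_num

end ring

section closure

variable {M : Type*} [Field M]

/-- The closure lemma: from the line and the direction one recovers the parameters. -/
theorem CL (Z : Subfield M) (hZ : ∀ t : M, t ^ 3 ∈ Z → t ∈ Z) (w μ α β a b : M)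
    (hw0 : w ^ 2 + w + 1 = 0) (hw : w ∈ Z) (hμ : μ ∈ Z) (ha : a ∈ Z) (hb : b ∈ Z)
    (hline : qz w μ α β = - a * qx w μ α β - b * qy w μ α β)
    (hr : qx w μ α β / qy w μ α β ∈ Z) (hy : qy w μ α β ≠ 0)
    (h1 : qs w μ α β - qx w μ α β ≠ 0) (h2 : qs w μ α β - w * qx w μ α β ≠ 0)
    (hm : 1 - μ ^ 3 ≠ 0) : α ∈ Z ∧ β ∈ Z := by
  have e1 := q1 w μ α β hw0
  have e2 := q2 w μ α β hw0
  have e3 := q_eq w μ α β hw0
  set x := qx w μ α β
  set y := qy w μ α β
  set z := qz w μ α β
  set s := qs w μ α β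
  set t := x / y with ht
  have hx : x = t * y := by rw [ht]; field_simp
  have hz : z = (- a * t - b) * y := by rw [hline, hx]; ring
  have hzZ : (- a * t - b) ∈ Z := Z.sub_mem (Z.mul_mem (Z.neg_mem ha) hr) hb
  set c := - a * t - b with hc
  have hmZ : 1 - μ ^ 3 ∈ Z := Z.sub_mem Z.one_mem (Z.pow_mem hμ 3)
  have h3Z : (3 : M) ∈ Z := ofNat_mem Z 3
  have hs : (s / y) ^ 3 = (t ^ 3 + 1 + c ^ 3 - 3 * μ * t * c) / (1 - μ ^ 3) := by
    rw [eq_div_iff hm, div_pow, div_mul_eq_mul_div, div_eq_iff (pow_ne_zero 3 hy)]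
    rw [hx, hz] at e3
    linear_combination - e3
  have hsZ : s / y ∈ Z := by
    apply hZ
    rw [hs]
    refine Z.div_mem ?_ hmZ
    exact Z.sub_mem (Z.add_mem (Z.add_mem (Z.pow_mem hr 3) Z.one_mem) (Z.pow_mem hzZ 3))
      (Z.mul_mem (Z.mul_mem (Z.mul_mem h3Z hμ) hr) hzZ)
  set q := s / y with hq
  have hs' : s = q * y := by rw [hq]; field_simp
  have g1 : q - t ≠ 0 := by
    intro h; apply h1; rw [hs', hx]; linear_combination y * h
  have g2 : q - w * t ≠ 0 := by
    intro h; apply h2; rw [hs', hx]; linear_combination y * h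
  constructor
  · have : α = (μ * t + 1 + c) / (q - t) := by
      rw [eq_div_iff g1]
      apply mul_right_cancel₀ hy
      rw [hs', hx, hz] at e1
      linear_combination - e1
    rw [this]
    exact Z.div_mem (Z.add_mem (Z.add_mem (Z.mul_mem hμ hr) Z.one_mem) hzZ) (Z.sub_mem hsZ hr)
  · have : β = (μ * t + w + w ^ 2 * c) / (q - w * t) := by
      rw [eq_div_iff g2]
      apply mul_right_cancel₀ hy
      rw [hs', hx, hz] at e2
      linear_combination - e2
    rw [this]
    exact Z.div_mem (Z.add_mem (Z.add_mem (Z.mul_mem hμ hr) hw) (Z.mul_mem (Z.pow_mem hw 2) hzZ))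
      (Z.sub_mem hsZ (Z.mul_mem hw hr))

/-- the direction is algebraic -/
theorem root_mem {K : Type u} {M : Type v} [Field K] [Field M] [Algebra K M] [CharZero K]
    (μ a b t u : M) (hμ : μ ∈ algebraicClosure K M) (ha : a ∈ algebraicClosure K M)
    (hb : b ∈ algebraicClosure K M) (hu : u ∈ algebraicClosure K M)
    (h : 4 * hh μ a b t 1 ^ 3 + u * cc μ a b t 1 ^ 2 = 0) (hev : evp μ a b ≠ 0) :
    t ∈ algebraicClosure K M := by
  have : CharZero M := charZero_of_injective_algebraMap (algebraMap K M).injective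
  set Z := algebraicClosure K M with hZdef
  apply mem_of_isAlgebraic
  let μ' : Z := ⟨μ, hμ⟩
  let a' : Z := ⟨a, ha⟩
  let b' : Z := ⟨b, hb⟩
  let u' : Z := ⟨u, hu⟩
  let P : Polynomial Z := 4 * hh (Polynomial.C μ') (Polynomial.C a') (Polynomial.C b')
    Polynomial.X 1 ^ 3 + Polynomial.C u' * cc (Polynomial.C μ') (Polynomial.C a')
      (Polynomial.C b') Polynomial.X 1 ^ 2
  have hP : ∀ s : M, Polynomial.aeval s P = 4 * hh μ a b s 1 ^ 3 + u * cc μ a b s 1 ^ 2 := by
    intro s
    have e1 : Polynomial.aeval s (hh (Polynomial.C μ') (Polynomial.C a') (Polynomial.C b')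
      Polynomial.X 1) = hh μ a b s 1 := by
      have := map_hh ((Polynomial.aeval s : Polynomial Z →ₐ[Z] M) : Polynomial Z →+* M)
        (Polynomial.C μ') (Polynomial.C a') (Polynomial.C b') Polynomial.X 1
      simp only [RingHom.coe_coe, Polynomial.aeval_C, Polynomial.aeval_X, map_one] at this
      exact this
    have e2 : Polynomial.aeval s (cc (Polynomial.C μ') (Polynomial.C a') (Polynomial.C b')
      Polynomial.X 1) = cc μ a b s 1 := by
      have := map_cc ((Polynomial.aeval s : Polynomial Z →ₐ[Z] M) : Polynomial Z →+* M)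
        (Polynomial.C μ') (Polynomial.C a') (Polynomial.C b') Polynomial.X 1
      simp only [RingHom.coe_coe, Polynomial.aeval_C, Polynomial.aeval_X, map_one] at this
      exact this
    simp only [P, map_add, map_mul, map_pow, e1, e2, Polynomial.aeval_C, map_ofNat]
    rfl
  refine ⟨P, ?_, ?_⟩
  · intro hP0
    have f0 := hP 0
    have f1 := hP 1
    rw [hP0, map_zero] at f0 f1
    apply hev
    unfold evp
    have h4 : (4 : M) ≠ 0 := by norm_num
    apply mul_left_cancel₀ h4
    linear_combination (-(cc μ a b 1 1 ^ 2)) * f0 + (cc μ a b 0 1 ^ 2) * f1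
  · rw [hP]; exact h

end closure

end W560.Ueno
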